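import Pool.Agent.Helper76.CQ.Desc

/-!
# Project CQ, piece D6: frames near the standard frame
-/

namespace Pool.Agent.Helper94.CQ

open MvPolynomial Pool.Agent.Helper76.CY Pool.Agent.Helper76.CQ

theorem frame_dch : ∃ δ > 0, ∀ Γ : Fin 10 × Fin 9 → ℚ_[2], (∀ p, ‖Γ p‖ < δ) →
    dch (Matrix.of (frame Γ)) 0 ≠ 0 := by
  have hcont : Continuous fun Γ : Fin 10 × Fin 9 → ℚ_[2] =>
      dch (Matrix.of (frame Γ)) (0 : Idx → ℚ_[2]) := by
    unfold dch
    refine Continuous.matrix_det ?_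
    refine continuous_matrix fun i j => ?_
    change Continuous fun Γ : Fin 10 × Fin 9 → ℚ_[2] =>
      ∑ l, row (0 : Idx → ℚ_[2]) i l * frame Γ l (c3 j)
    refine continuous_finsetSum _ fun l _ => continuous_const.mul ?_
    unfold frame
    refine continuous_const.add (continuous_finsetSum _ fun d _ => ?_)
    split_ifs
    · exact continuous_apply _
    · exact continuous_const
  have h0 : dch (Matrix.of (frame (0 : Fin 10 × Fin 9 → ℚ_[2]))) (0 : Idx → ℚ_[2]) = 1 := by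
    have h1 : blk (move (Matrix.of (frame (0 : Fin 10 × Fin 9 → ℚ_[2])))
        (0 : Idx → ℚ_[2])) = 1 := by
      ext i j
      change ∑ l, row (0 : Idx → ℚ_[2]) i l * frame (0 : Fin 10 × Fin 9 → ℚ_[2]) l (c3 j) = _
      fin_cases i <;> fin_cases j <;>
        simp [row, frame, c3, bv, tv, Fin.sum_univ_succ]
    rw [dch, h1, Matrix.det_one]
  have hev : ∀ᶠ Γ in nhds (0 : Fin 10 × Fin 9 → ℚ_[2]),
      dch (Matrix.of (frame Γ)) (0 : Idx → ℚ_[2]) ≠ 0 :=
    hcont.continuousAt.eventually_ne (by rw [h0]; exact one_ne_zero)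
  obtain ⟨δ, hδ, hball⟩ := Metric.eventually_nhds_iff.1 hev
  refine ⟨δ, hδ, fun Γ hΓ => hball ?_⟩
  rw [dist_zero_right]
  exact (pi_norm_lt_iff hδ).2 hΓ

end Pool.Agent.Helper94.CQ
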