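import Pool.Agent.Helper76.CQ.Defs

/-!
# Project CQ, piece 6c: coefficients of the characteristic polynomial, eigenvalues of a power
-/

namespace Pool.Agent.Helper94.CQ

open MvPolynomial Pool.Agent.Helper76.CY Pool.Agent.Helper76.CQ Filter Topology

theorem continuousAt_charpoly {Y : Type*} [TopologicalSpace Y]
    (C : Y → ((Idx → ℚ_[2]) →ₗ[ℚ_[2]] (Idx → ℚ_[2]))) (y : Y)
    (h : ∀ p q, ContinuousAt (fun x => C x (Pi.single q 1) p) y) (i : ℕ) :
    ContinuousAt (fun x => (C x).charpoly.coeff i) y := by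
  have key : ∀ x, (C x).charpoly.coeff i =
      MvPolynomial.eval (fun pq : Idx × Idx => C x (Pi.single pq.2 1) pq.1)
        ((Matrix.charpoly.univ ℚ_[2] Idx).coeff i) := by
    intro x
    have h1 := Matrix.charpoly.univ_coeff_eval₂Hom Idx (RingHom.id ℚ_[2])
      (fun pq : Idx × Idx => C x (Pi.single pq.2 1) pq.1) i
    have h2 : (Matrix.of (Function.curry
        (fun pq : Idx × Idx => C x (Pi.single pq.2 1) pq.1))) =
        LinearMap.toMatrix (Pi.basisFun ℚ_[2] Idx) (Pi.basisFun ℚ_[2] Idx) (C x) := by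
      ext p q
      simp [Function.curry]
    rw [h2, LinearMap.charpoly_toMatrix] at h1
    rw [← h1]
    rfl
  simp only [key]
  have h3 : ContinuousAt (fun x => fun pq : Idx × Idx => C x (Pi.single pq.2 1) pq.1) y :=
    continuousAt_pi.2 fun pq => h pq.1 pq.2
  exact ContinuousAt.comp (f := fun x => fun pq : Idx × Idx => C x (Pi.single pq.2 1) pq.1)
    (g := fun v => MvPolynomial.eval v ((Matrix.charpoly.univ ℚ_[2] Idx).coeff i))
    (MvPolynomial.continuous_eval _).continuousAt h3

theorem eig_pow {K M : Type*} [Field K] [Field M] [Algebra K M] [IsAlgClosed M]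
    (B : (Idx → K) →ₗ[K] (Idx → K)) (χ : Polynomial K) (e : ℕ)
    (h : B ^ e * Polynomial.aeval B χ = 0) (n : ℕ) (hn : 0 < n) (z : M)
    (hz : Polynomial.aeval z (B ^ n).charpoly = 0) :
    z = 0 ∨ ∃ w : M, Polynomial.aeval w χ = 0 ∧ z = w ^ n := by
  classical
  -- the matrix over `M`
  let ψ : ((Idx → K) →ₗ[K] (Idx → K)) →ₐ[K] Matrix Idx Idx M :=
    ((Algebra.ofId K M).mapMatrix).comp
      (LinearMap.toMatrixAlgEquiv' : ((Idx → K) →ₗ[K] (Idx → K)) ≃ₐ[K] Matrix Idx Idx K).toAlgHom
  have hchar : ∀ F : (Idx → K) →ₗ[K] (Idx → K),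
      (ψ F).charpoly = F.charpoly.map (algebraMap K M) := by
    intro F
    rw [← LinearMap.charpoly_toMatrix F (Pi.basisFun K Idx), ← Matrix.charpoly_map]
    congr 1
  -- the zero of the characteristic polynomial is an eigenvalue
  have hspec : z ∈ spectrum M (ψ B ^ n) := by
    rw [Matrix.mem_spectrum_iff_isRoot_charpoly, ← map_pow, hchar, Polynomial.IsRoot.def,
      Polynomial.eval_map_algebraMap]
    exact hz
  rw [spectrum.map_pow_of_pos (𝕜 := M) (ψ B) hn] at hspec
  obtain ⟨w, hw, rfl⟩ := hspec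
  -- the polynomial relation
  have hrel : Polynomial.aeval (ψ B) (Polynomial.X ^ e * χ.map (algebraMap K M)) = 0 := by
    rw [map_mul, map_pow, Polynomial.aeval_X, Polynomial.aeval_map_algebraMap,
      Polynomial.aeval_algHom_apply, ← map_pow, ← map_mul, h, map_zero]
  have hmem : Polynomial.eval w (Polynomial.X ^ e * χ.map (algebraMap K M)) ∈
      spectrum M (Polynomial.aeval (ψ B) (Polynomial.X ^ e * χ.map (algebraMap K M))) :=
    spectrum.subset_polynomial_aeval (ψ B) _ ⟨w, hw, rfl⟩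
  rw [hrel, spectrum.zero_eq, Set.mem_singleton_iff, Polynomial.eval_mul, Polynomial.eval_pow,
    Polynomial.eval_X, Polynomial.eval_map_algebraMap, mul_eq_zero] at hmem
  rcases hmem with h1 | h1
  · left
    have h2 : w = 0 := by
      by_contra hne
      exact pow_ne_zero e hne h1
    change w ^ n = 0
    rw [h2, zero_pow hn.ne']
  · exact Or.inr ⟨w, h1, rfl⟩

end Pool.Agent.Helper94.CQ
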