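import Pool.Agent.Helper76.CQ.Desc

/-!
# Project CQ, piece D5: descent of algebraic independence
-/

namespace Pool.Agent.Helper94.CQ

open MvPolynomial Pool.Agent.Helper76.CY Pool.Agent.Helper76.CQ

open scoped IntermediateField.algebraAdjoinAdjoin

/-- The columns of the matrix `(1 | y)`. -/
theorem row_c3 {T : Type*} [CommRing T] (y : Idx → T) (i j : Fin 3) :
    row y i (c3 j) = if i = j then 1 else 0 := by
  fin_cases i <;> fin_cases j <;> simp [row, bv, tv, c3]

theorem row_add3 {T : Type*} [CommRing T] (y : Idx → T) (i : Fin 3) (j : Fin 7) :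
    row y i ⟨(j : ℕ) + 3, by omega⟩ = y (i, j) := by
  have h1 : ¬ ((j : ℕ) + 3 < 3) := by omega
  have h2 : (⟨(j : ℕ) + 3, by omega⟩ : Fin 10) ≠ c3 i := by
    intro h
    have := congrArg Fin.val h
    have h3 : ((c3 i : Fin 10) : ℕ) = i := rfl
    simp only [h3] at this
    omega
  simp only [row, bv, tv, Pi.add_apply, Pi.single_apply, if_neg h2, dif_neg h1, zero_add]
  rfl

/-- The coordinates of a matrix `A (1 | y)` with `A` invertible. -/
theorem chart_mul_row {T : Type*} [CommRing T] (A : Matrix (Fin 3) (Fin 3) T) (hA : IsUnit A.det)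
    (y : Idx → T) : chart (fun i j => ∑ l, A i l * row y l j) = y := by
  have hblk : blk (fun i j => ∑ l, A i l * row y l j) = A := by
    ext i j
    simp [blk, row_c3]
  funext q
  unfold chart
  rw [hblk]
  have h1 : ∀ j, (∑ l, A j l * row y l ⟨(q.2 : ℕ) + 3, by omega⟩) = ∑ l, A j l * y (l, q.2) := by
    intro j
    simp only [row_add3]
  simp only [h1, Finset.mul_sum]
  rw [Finset.sum_comm]
  have h2 : ∀ l, (∑ j, A⁻¹ q.1 j * (A j l * y (l, q.2))) = (A⁻¹ * A) q.1 l * y (l, q.2) := by
    intro l
    rw [Matrix.mul_apply, Finset.sum_mul]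
    simp only [mul_assoc]
  simp only [h2, Matrix.nonsing_inv_mul A hA, Matrix.one_apply, ite_mul, one_mul, zero_mul,
    Finset.sum_ite_eq, Finset.mem_univ, if_true]

/-- The rows of the matrix `(1 | chart R)`. -/
theorem row_chart_eq {T : Type*} [CommRing T] (R : Fin 3 → Fin 10 → T) (h : IsUnit (blk R).det)
    (i : Fin 3) (j : Fin 10) : row (chart R) i j = ∑ l, (blk R)⁻¹ i l * R l j := by
  by_cases hj : (j : ℕ) < 3
  · obtain ⟨k, rfl⟩ : ∃ k : Fin 3, c3 k = j := ⟨⟨j, hj⟩, rfl⟩
    rw [row_c3]
    have h1 : (∑ l, (blk R)⁻¹ i l * R l (c3 k)) = ((blk R)⁻¹ * blk R) i k := by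
      rw [Matrix.mul_apply]
      rfl
    rw [h1, Matrix.nonsing_inv_mul _ h, Matrix.one_apply]
  · obtain ⟨k, hk, rfl⟩ : ∃ k : Fin 7, ∃ hk : (k : ℕ) + 3 < 10,
        (⟨(k : ℕ) + 3, hk⟩ : Fin 10) = j :=
      ⟨⟨(j : ℕ) - 3, by omega⟩, by simp only []; omega, Fin.ext (by simp only []; omega)⟩
    rw [row_add3]
    rfl

theorem chg_chg {T : Type*} [CommRing T] (g : Matrix (Fin 10) (Fin 10) T) (hg : IsUnit g.det)
    (y : Idx → T) (h : IsUnit (dch g y)) : chg g⁻¹ (chg g y) = y := by
  have hA : IsUnit ((blk (move g y))⁻¹).det :=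
    (Matrix.isUnit_nonsing_inv_det_iff).2 h
  have hmove : move g⁻¹ (chg g y) = fun i j => ∑ l, (blk (move g y))⁻¹ i l * row y l j := by
    funext i j
    unfold move chg
    simp only [row_chart_eq (move g y) h]
    have h1 : ∀ l, (∑ k, (blk (move g y))⁻¹ i k * move g y k l) * g⁻¹ l j =
        ∑ k, (blk (move g y))⁻¹ i k * (move g y k l * g⁻¹ l j) := by
      intro l
      rw [Finset.sum_mul]
      simp only [mul_assoc]
    simp only [h1]
    rw [Finset.sum_comm]
    refine Finset.sum_congr rfl fun k _ => ?_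
    rw [← Finset.mul_sum]
    congr 1
    have h2 : ∀ l, move g y k l * g⁻¹ l j = ∑ m, row y k m * (g m l * g⁻¹ l j) := by
      intro l
      unfold move
      rw [Finset.sum_mul]
      simp only [mul_assoc]
    simp only [h2]
    rw [Finset.sum_comm]
    have h3 : ∀ m, (∑ l, row y k m * (g m l * g⁻¹ l j)) = row y k m * (g * g⁻¹) m j := by
      intro m
      rw [Matrix.mul_apply, Finset.mul_sum]
    simp only [h3, Matrix.mul_nonsing_inv g hg, Matrix.one_apply, mul_ite, mul_one, mul_zero,
      Finset.sum_ite_eq', Finset.mem_univ, if_true]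
  unfold chg at hmove ⊢
  rw [hmove]
  exact chart_mul_row _ hA y

/-- The inverse of a matrix with entries in a subfield has entries in the subfield. -/
theorem inv_entry_mem {E : Type*} [Field E] {n : ℕ} (S : Subfield E)
    (M : Matrix (Fin n) (Fin n) E) (h : ∀ i j, M i j ∈ S) (i j : Fin n) : M⁻¹ i j ∈ S := by
  let M' : Matrix (Fin n) (Fin n) S := Matrix.of fun i j => ⟨M i j, h i j⟩
  have hM : M = S.subtype.mapMatrix M' := by
    ext a b
    rfl
  have hdet : M.det = S.subtype M'.det := by
    rw [hM, RingHom.map_det]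
  have hadj : M.adjugate i j = S.subtype (M'.adjugate i j) := by
    rw [hM, ← RingHom.map_adjugate]
    rfl
  rw [Matrix.inv_def, Matrix.smul_apply, smul_eq_mul, Ring.inverse_eq_inv', hdet, hadj]
  exact S.mul_mem (S.inv_mem (Subtype.prop _)) (Subtype.prop _)

/-- The change of charts stays in a subfield. -/
theorem chg_mem {E : Type*} [Field E] (S : Subfield E) (g : Matrix (Fin 10) (Fin 10) E)
    (hg : ∀ i j, g i j ∈ S) (z : Idx → E) (hz : ∀ q, z q ∈ S) (q : Idx) : chg g z q ∈ S := by
  have hrow : ∀ i l, row z i l ∈ S := by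
    intro i l
    simp only [row, bv, tv, Pi.add_apply]
    refine S.add_mem ?_ ?_
    · rw [Pi.single_apply]
      split_ifs
      · exact S.one_mem
      · exact S.zero_mem
    · split_ifs
      · exact S.zero_mem
      · exact hz _
  have hmove : ∀ i j, move g z i j ∈ S := by
    intro i j
    exact S.sum_mem fun l _ => S.mul_mem (hrow i l) (hg l j)
  unfold chg chart
  refine S.sum_mem fun j _ => S.mul_mem ?_ (hmove _ _)
  exact inv_entry_mem S _ (fun a b => hmove a (c3 b)) _ _

theorem desc_indep {K L E : Type} [Field K] [Field L] [Field E] [Algebra K L] [Algebra K E]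
    [Algebra L E] [IsScalarTower K L E] [Algebra.IsAlgebraic K L]
    (g : Matrix (Fin 10) (Fin 10) L) (hg : g.det ≠ 0) (y : Idx → E)
    (hyu : IsUnit (dch (g.map (algebraMap L E)) y)) (v : Fin 11 → E)
    (hv : AlgebraicIndependent L v) (hvy : ∀ i, v i ∈ Algebra.adjoin L (Set.range y)) :
    ∃ k : Fin 11 → Idx, AlgebraicIndependent K
      (fun i => chg (g.map (algebraMap L E)) y (k i)) := by
  classical
  obtain ⟨z, hz⟩ : ∃ z : Idx → E, z = chg (g.map (algebraMap L E)) y := ⟨_, rfl⟩
  rw [← hz]
  have hgdet : IsUnit (g.map (algebraMap L E)).det := by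
    have h1 : (g.map (algebraMap L E)).det = algebraMap L E g.det := by
      rw [RingHom.map_det]
      rfl
    rw [h1]
    exact (IsUnit.mk0 _ hg).map _
  have hy : chg (g.map (algebraMap L E))⁻¹ z = y := by
    rw [hz]
    exact chg_chg (g.map (algebraMap L E)) hgdet y hyu
  -- the algebraic closure of the field generated by the coordinates
  let F : IntermediateField K E := IntermediateField.adjoin K (Set.range z)
  let S : IntermediateField F E := algebraicClosure F E
  have hL : ∀ l : L, algebraMap L E l ∈ S.toSubfield := by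
    intro l
    change algebraMap L E l ∈ algebraicClosure F E
    rw [mem_algebraicClosure_iff]
    have h1 : IsAlgebraic K (algebraMap L E l) :=
      (Algebra.IsAlgebraic.isAlgebraic l).algebraMap
    exact h1.extendScalars (algebraMap K F).injective
  have hzS : ∀ q, z q ∈ S.toSubfield := by
    intro q
    change z q ∈ algebraicClosure F E
    rw [mem_algebraicClosure_iff]
    exact isAlgebraic_algebraMap (⟨z q, IntermediateField.subset_adjoin K _ ⟨q, rfl⟩⟩ : F)
  have hyS : ∀ q, y q ∈ S.toSubfield := by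
    intro q
    rw [← hy]
    exact chg_mem _ _ (fun i j => inv_entry_mem _ _ (fun a b => hL _) i j) _ hzS q
  have hvS : ∀ i, v i ∈ S.toSubfield := by
    intro i
    let T : Subalgebra L E := { S.toSubfield.toSubring.toSubsemiring with
      algebraMap_mem' := hL }
    have hT : Algebra.adjoin L (Set.range y) ≤ T := by
      rw [Algebra.adjoin_le_iff]
      rintro _ ⟨q, rfl⟩
      exact hyS q
    exact hT (hvy i)
  -- the matroid of algebraic independence
  have hvK : AlgebraicIndependent K v := hv.restrictScalars (algebraMap K L).injective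
  have hind : (AlgebraicIndependent.matroid K E).Indep (Set.range v) := by
    rw [AlgebraicIndependent.matroid_indep_iff]
    exact hvK.to_subtype_range
  have hsub : Set.range v ⊆ (AlgebraicIndependent.matroid K E).closure (Set.range z) := by
    rw [AlgebraicIndependent.matroid_closure_eq]
    rintro _ ⟨i, rfl⟩
    have h1 : IsAlgebraic F (v i) := mem_algebraicClosure_iff.1 (hvS i)
    change IsAlgebraic (Algebra.adjoin K (Set.range z)) (v i)
    exact (IsFractionRing.isAlgebraic_iff (Algebra.adjoin K (Set.range z)) F E).2 h1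
  obtain ⟨I, hI⟩ := (AlgebraicIndependent.matroid K E).exists_isBasis (Set.range z)
    (by rw [AlgebraicIndependent.matroid_e]; exact Set.subset_univ _)
  have hcard : (11 : ℕ∞) ≤ I.encard := by
    have h1 := hind.encard_le_eRk_of_subset hsub
    rw [Matroid.eRk_closure_eq, ← hI.encard_eq_eRk, ← Set.image_univ,
      hvK.injective.encard_image, Set.encard_univ, ENat.card_eq_coe_fintype_card,
      Fintype.card_fin] at h1
    exact h1
  obtain ⟨t, htI, ht⟩ := Set.exists_subset_encard_eq hcard
  have htfin : t.Finite := Set.finite_of_encard_eq_coe ht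
  have hmem : ∀ x ∈ t, ∃ q, z q = x := fun x hx => hI.subset (htI hx)
  have : Finite t := htfin
  obtain ⟨e⟩ : Nonempty (Fin 11 ≃ t) := by
    have h1 : Nat.card t = 11 := by
      rw [Nat.card_coe_set_eq, Set.ncard, ht]
      rfl
    exact ⟨(Finite.equivFinOfCardEq h1).symm⟩
  choose k hk using fun i : Fin 11 => hmem (e i) (e i).2
  refine ⟨k, ?_⟩
  have h2 : AlgebraicIndependent K ((↑) : I → E) := hI.indep
  have h3 := h2.comp (fun i : Fin 11 => (⟨e i, htI (e i).2⟩ : I)) (by
    intro a b hab
    exact e.injective (Subtype.ext (Subtype.mk.inj hab)))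
  convert h3 using 1
  funext i
  exact hk i

end Pool.Agent.Helper94.CQ
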